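import Pool.Agent.R164.ArrBd

/-!
# Edge-isoperimetry fails in chamber graphs of general-position arrangements of planes

There is an arrangement of 84 planes of `ℝ³` in general position, with at least 95284 chambers, and
a set of `39774 = C(62,0) + C(62,1) + C(62,2) + C(62,3)` of its chambers with at most
`1896 < 1954 = C(62,0) + C(62,1) + C(62,2)` boundary edges.

The arrangement: with `τ = 10⁻²⁰`, the 48 planes `P_i : x + i (1 - z) - τ i² y + τ² i³ = 0`
(for `i = 48` the coefficient of `y` is `0`), which are close to the planes of a pencil through the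
line `x = 0, z = 1`, and the 36 planes `Q_j : y + j z + τ j² x + τ² j³ = 0`, which are close to the
planes of a pencil through the line `y = 0, z = 0`. The chambers chosen are those whose positive
`P` planes are the ones with `i ≥ t` for some `t` and which are not on the positive side of all
`Q` planes.
-/

set_option autoImplicit false

namespace Pool.Agent.Results.MP_90133a_co.ChamberIsoperimetryFails

open Pool.Agent.R164.Arr

/-- Euclidean space of dimension `d`. -/
abbrev E (d : ℕ) := EuclideanSpace ℝ (Fin d)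

/-- The affine subspaces of `ℝ^d`. -/
abbrev Sub (d : ℕ) := AffineSubspace ℝ (E d)

/-- The dimension of a nonempty affine subspace: the dimension of its direction. -/
noncomputable def dim {d : ℕ} (F : Sub d) : ℕ := Module.finrank ℝ F.direction

/-- The intersection of the members of a family of affine subspaces with index in `I`. -/
noncomputable def inter {d : ℕ} {ι : Type} (H : ι → Sub d) (I : Finset ι) : Sub d := ⨅ i ∈ I, H i

/-- A family of affine subspaces of `ℝ^d` is a family of affine hyperplanes in general position: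
any `m ≤ d` members meet in an affine subspace of dimension `d - m` (for `m = 1` this says that
every member is a hyperplane), and any `d + 1` members have empty intersection. -/
structure GeneralPosition {d : ℕ} {ι : Type} (H : ι → Sub d) : Prop where
  meet : ∀ I : Finset ι, I.card ≤ d → inter H I ≠ ⊥ ∧ dim (inter H I) = d - I.card
  empty : ∀ I : Finset ι, I.card = d + 1 → inter H I = ⊥

/-- The complement of the union of the hyperplanes. -/
def complement {d : ℕ} {ι : Type} (H : ι → Sub d) : Set (E d) := {x | ∀ i, x ∉ H i}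

/-- The chambers: the connected components of the complement of the union of the hyperplanes. -/
def chambers {d : ℕ} {ι : Type} (H : ι → Sub d) : Set (Set (E d)) :=
  {C | ∃ x ∈ complement H, C = connectedComponentIn (complement H) x}

/-- The hyperplane `h` separates `C` and `D`: every point of `C` and every point of `D` lie strictly
on opposite sides of `h`. -/
def Separates {d : ℕ} (h : Sub d) (C D : Set (E d)) : Prop := ∀ x ∈ C, ∀ y ∈ D, h.SOppSide x y

/-- Exactly one hyperplane of the family separates `C` and `D`. -/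
def Adjacent {d : ℕ} {ι : Type} (H : ι → Sub d) (C D : Set (E d)) : Prop :=
  ∃! i, Separates (H i) C D

theorem Adjacent.symm {d : ℕ} {ι : Type} {H : ι → Sub d} {C D : Set (E d)}
    (h : Adjacent H C D) : Adjacent H D C := by
  obtain ⟨i, h1, h2⟩ := h
  exact ⟨i, fun x hx y hy => (h1 y hy x hx).symm,
    fun j hj => h2 j fun x hx y hy => (hj y hy x hx).symm⟩

theorem not_adjacent_self {d : ℕ} {ι : Type} {H : ι → Sub d} (C : chambers H) :
    ¬ Adjacent H C.1 C.1 := by
  rintro ⟨i, h1, _⟩
  obtain ⟨x, hx, hC⟩ := C.2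
  have h2 : x ∈ (C : Set (E d)) := by rw [hC]; exact mem_connectedComponentIn hx
  exact AffineSubspace.not_sOppSide_self _ _ (h1 x h2 x h2)

/-- The chamber graph: two chambers are adjacent when exactly one hyperplane of the family separates
them. -/
def chamberGraph {d : ℕ} {ι : Type} (H : ι → Sub d) : SimpleGraph (chambers H) where
  Adj C D := Adjacent H C.1 D.1
  symm := ⟨fun _ _ h => h.symm⟩
  loopless := ⟨not_adjacent_self⟩

/-- The edge boundary of a set of chambers: the edges of the chamber graph with exactly one endpoint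
in the set. -/
def edgeBoundary {d : ℕ} {ι : Type} (H : ι → Sub d) (S : Set (chambers H)) :
    Set (Sym2 (chambers H)) :=
  {e | e ∈ (chamberGraph H).edgeSet ∧ ∃ C ∈ S, ∃ D ∉ S, e = s(C, D)}

/-- `S` is at most half of the chambers. -/
def AtMostHalf {d : ℕ} {ι : Type} (H : ι → Sub d) (S : Set (chambers H)) : Prop :=
  2 * S.encard ≤ (Set.univ : Set (chambers H)).encard

/-- The sum `C(k,0) + C(k,1) + ... + C(k,m-1)` of the first `m` binomial coefficients. -/
def binSum (k m : ℕ) : ℕ := ∑ i ∈ Finset.range m, k.choose i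

/-- The statement of the question in dimension `d`: for every finite family of affine hyperplanes of
`ℝ^d` in general position, every set `S` of at most half of its chambers with
`|S| = ∑_{i=0}^{d} C(k,i)` for an integer `k ≥ d - 1` has an edge boundary of at least
`∑_{i=0}^{d-1} C(k,i)` edges. -/
def EdgeIsoperimetry (d : ℕ) : Prop :=
  ∀ (ι : Type) [Finite ι] (H : ι → Sub d), GeneralPosition H →
    ∀ (k : ℕ), d ≤ k + 1 → ∀ S : Set (chambers H), AtMostHalf H S →
      S.encard = (binSum k (d + 1) : ℕ∞) → (binSum k d : ℕ∞) ≤ (edgeBoundary H S).encard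

/-! ### The planes -/

/-- the planes -/
noncomputable def Hs (i : Idx) : AffineSubspace ℝ (E 3) where
  carrier := {v | fn i v = 0}
  smul_vsub_vadd_mem' c p1 p2 p3 h1 h2 h3 := by
    change fn i (c • (p1 - p2) + p3) = 0
    change fn i p1 = 0 at h1
    change fn i p2 = 0 at h2
    change fn i p3 = 0 at h3
    rw [add_comm, affFam.add_smul, affFam.lin, h1, h2, h3]
    ring

theorem mem_Hs {i : Idx} {v : E 3} : v ∈ Hs i ↔ fn i v = 0 := Iff.rfl

theorem mem_inf {I : Finset Idx} {v : E 3} : v ∈ inter Hs I ↔ ∀ i ∈ I, fn i v = 0 := by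
  simp only [inter, AffineSubspace.mem_iInf_iff, mem_Hs]

theorem fn_cont (i : Idx) : Continuous (fn i) := by
  rcases i with i | j
  · change Continuous fun v : E 3 =>
      v 0 + aP i * (1 - v 2) - τ * eP i * v 1 + τ ^ 2 * aP i ^ 3
    fun_prop
  · change Continuous fun v : E 3 =>
      v 1 + bQ j * v 2 + τ * bQ j ^ 2 * v 0 + τ ^ 2 * bQ j ^ 3
    fun_prop

theorem generalPosition : GeneralPosition Hs := by
  classical
  constructor
  · intro I hI
    obtain ⟨p, hp⟩ := common I hI
    have hpI : p ∈ inter Hs I := mem_inf.2 hp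
    refine ⟨fun h => by rw [h] at hpI; exact AffineSubspace.notMem_bot ℝ (E 3) p hpI, ?_⟩
    set Ψ : E 3 →ₗ[ℝ] (I → ℝ) := LinearMap.pi fun i => lin i with hΨ
    have hker : (inter Hs I).direction = LinearMap.ker Ψ := by
      ext v
      rw [AffineSubspace.mem_direction_iff_eq_vsub_right hpI, LinearMap.mem_ker]
      constructor
      · rintro ⟨q, hq, rfl⟩
        ext i
        rw [hΨ, LinearMap.pi_apply, lin_apply, Pi.zero_apply, vsub_eq_sub, affFam.lin,
          hp i i.2, mem_inf.1 hq i i.2, sub_zero]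
      · intro hv
        refine ⟨p + (1 : ℝ) • v, mem_inf.2 fun i hi => ?_, ?_⟩
        · have h1 := congrFun hv ⟨i, hi⟩
          rw [hΨ, LinearMap.pi_apply, lin_apply, Pi.zero_apply] at h1
          rw [affFam.add_smul, hp i hi, h1]
          ring
        · rw [vsub_eq_sub, one_smul, add_sub_cancel_left]
    have hsurj : Function.Surjective Ψ := by
      intro g
      obtain ⟨v, hv⟩ := surj I hI (fun i => if h : i ∈ I then g ⟨i, h⟩ else 0)
      refine ⟨v, ?_⟩
      ext i
      rw [hΨ, LinearMap.pi_apply, lin_apply, hv i i.2, dif_pos i.2]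
    have h1 := LinearMap.finrank_range_add_finrank_ker Ψ
    rw [LinearMap.range_eq_top.2 hsurj, finrank_top] at h1
    rw [dim, hker]
    simp only [Module.finrank_fintype_fun_eq_card, Fintype.card_coe, finrank_euclideanSpace,
      Fintype.card_fin] at h1
    omega
  · intro I hI
    rw [← AffineSubspace.coe_eq_bot_iff, Set.eq_empty_iff_forall_notMem]
    intro v hv
    have := zero_le v I (mem_inf.1 hv)
    omega

/-! ### The chambers -/

/-- the open polyhedron with positive set `σ` -/
def Wc (σ : Finset Idx) : Set (E 3) :=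
  {v | ∀ i, (i ∈ σ → 0 < fn i v) ∧ (i ∉ σ → fn i v < 0)}

theorem Wc_sub (σ : Finset Idx) : Wc σ ⊆ complement Hs := by
  intro v hv i hi
  rw [mem_Hs] at hi
  by_cases h : i ∈ σ
  · have := (hv i).1 h; linarith
  · have := (hv i).2 h; linarith

theorem Wc_conv (σ : Finset Idx) : Convex ℝ (Wc σ) := by
  intro v hv w hw a b ha hb hab i
  have e : a • v + b • w = v + b • (w - v) := by
    have : a = 1 - b := by linarith
    rw [this]; module
  rw [e, affFam.seg]
  have h1 : 1 - b = a := by linarith
  rw [h1]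
  constructor
  · intro h
    have h2 := (hv i).1 h
    have h3 := (hw i).1 h
    rcases eq_or_lt_of_le ha with h4 | h4
    · have : b = 1 := by linarith
      rw [← h4, this]; linarith
    · nlinarith [mul_pos h4 h2, mul_nonneg hb h3.le]
  · intro h
    have h2 := (hv i).2 h
    have h3 := (hw i).2 h
    rcases eq_or_lt_of_le ha with h4 | h4
    · have : b = 1 := by linarith
      rw [← h4, this]; linarith
    · nlinarith [mul_neg_of_pos_of_neg h4 h2, mul_nonpos_of_nonneg_of_nonpos hb h3.le]

theorem mem_Wc_sgn {v : E 3} (hv : v ∈ complement Hs) : v ∈ Wc (sgn fn Finset.univ v) := by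
  intro i
  rw [mem_sgn]
  constructor
  · intro h; exact h.2
  · intro h
    exact lt_of_le_of_ne (not_lt.1 fun h2 => h ⟨Finset.mem_univ _, h2⟩) (hv i)

theorem sgn_of_mem {v : E 3} {σ : Finset Idx} (hv : v ∈ Wc σ) : sgn fn Finset.univ v = σ := by
  ext i
  rw [mem_sgn]
  constructor
  · rintro ⟨_, h⟩
    by_contra h2
    have := (hv i).2 h2
    linarith
  · intro h; exact ⟨Finset.mem_univ _, (hv i).1 h⟩

theorem component_eq {v : E 3} (hv : v ∈ complement Hs) :
    connectedComponentIn (complement Hs) v = Wc (sgn fn Finset.univ v) := by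
  apply Set.Subset.antisymm
  · intro w hw i
    have hpre : IsPreconnected (connectedComponentIn (complement Hs) v) :=
      isPreconnected_connectedComponentIn
    have hvm := mem_connectedComponentIn hv
    have hsub := connectedComponentIn_subset (complement Hs) v
    have hne : ∀ u ∈ connectedComponentIn (complement Hs) v, fn i u ≠ 0 :=
      fun u hu h => hsub hu i h
    rw [mem_sgn]
    constructor
    · rintro ⟨_, h⟩
      by_contra h2
      push Not at h2
      obtain ⟨u, hu, hu0⟩ := hpre.intermediate_value hw hvm (fn_cont i).continuousOn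
        (Set.mem_Icc.2 ⟨h2, h.le⟩)
      exact hne u hu hu0
    · intro h
      by_contra h2
      push Not at h2
      have h3 : fn i v ≤ 0 := not_lt.1 fun h4 => h ⟨Finset.mem_univ _, h4⟩
      obtain ⟨u, hu, hu0⟩ := hpre.intermediate_value hvm hw (fn_cont i).continuousOn
        (Set.mem_Icc.2 ⟨h3, h2⟩)
      exact hne u hu hu0
  · exact (Wc_conv _).isPreconnected.subset_connectedComponentIn (mem_Wc_sgn hv) (Wc_sub _)

theorem Cells_iff {σ : Finset Idx} : σ ∈ Cells ↔ ∃ v ∈ complement Hs, σ = sgn fn Finset.univ v := by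
  constructor
  · rintro ⟨v, _, h1, h2⟩
    exact ⟨v, fun i hi => h1 i (Finset.mem_univ _) hi, h2⟩
  · rintro ⟨v, h1, h2⟩
    exact ⟨v, Set.mem_univ _, fun i _ hi => h1 i hi, h2⟩

/-- the chamber of a cell -/
def toCh (σ : Cells) : chambers Hs := ⟨Wc σ.1, by
  obtain ⟨v, hv, hσ⟩ := Cells_iff.1 σ.2
  exact ⟨v, hv, by rw [component_eq hv, ← hσ]⟩⟩

theorem Wc_nonempty (σ : Cells) : (Wc σ.1).Nonempty := by
  obtain ⟨v, hv, hσ⟩ := Cells_iff.1 σ.2
  exact ⟨v, by rw [hσ]; exact mem_Wc_sgn hv⟩

theorem toCh_inj : Function.Injective toCh := by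
  intro σ ρ h
  have h1 : Wc σ.1 = Wc ρ.1 := congrArg Subtype.val h
  obtain ⟨v, hv⟩ := Wc_nonempty σ
  have h2 := sgn_of_mem hv
  rw [h1] at hv
  have h3 := sgn_of_mem hv
  exact Subtype.ext (h2.symm.trans h3)

theorem toCh_surj : Function.Surjective toCh := by
  rintro ⟨C, v, hv, rfl⟩
  refine ⟨⟨sgn fn Finset.univ v, Cells_iff.2 ⟨v, hv, rfl⟩⟩, Subtype.ext ?_⟩
  exact (component_eq hv).symm

theorem side_iff {i : Idx} {x y : E 3} (h : (Hs i).SOppSide x y) :
    (0 < fn i x ∧ fn i y < 0) ∨ (fn i x < 0 ∧ 0 < fn i y) := by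
  obtain ⟨h1, h2, h3⟩ := h
  rw [mem_Hs] at h2 h3
  obtain ⟨p, hp, t, ⟨t0, t1⟩, rfl⟩ := AffineSubspace.wOppSide_iff_exists_wbtw.1 h1
  rw [mem_Hs, AffineMap.lineMap_apply, vsub_eq_sub, vadd_eq_add, add_comm, affFam.seg] at hp
  rcases lt_or_gt_of_ne h2 with h4 | h4 <;> rcases lt_or_gt_of_ne h3 with h5 | h5
  · exfalso
    rcases eq_or_lt_of_le t0 with h6 | h6
    · rw [← h6] at hp; linarith
    · nlinarith [mul_neg_of_pos_of_neg h6 h5, mul_nonpos_of_nonneg_of_nonpos
        (sub_nonneg.2 t1) h4.le]
  · exact Or.inr ⟨h4, h5⟩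
  · exact Or.inl ⟨h4, h5⟩
  · exfalso
    rcases eq_or_lt_of_le t0 with h6 | h6
    · rw [← h6] at hp; linarith
    · nlinarith [mul_pos h6 h5, mul_nonneg (sub_nonneg.2 t1) h4.le]

theorem side_of {i : Idx} {x y : E 3} (h1 : 0 < fn i x) (h2 : fn i y < 0) :
    (Hs i).SOppSide x y := by
  have hden : 0 < fn i x - fn i y := by linarith
  refine ⟨AffineSubspace.wOppSide_iff_exists_wbtw.2
    ⟨AffineMap.lineMap x y (fn i x / (fn i x - fn i y)), ?_,
      fn i x / (fn i x - fn i y), ⟨div_nonneg h1.le hden.le, by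
        rw [div_le_one hden]; linarith⟩, rfl⟩, ?_, ?_⟩
  · rw [mem_Hs, AffineMap.lineMap_apply, vsub_eq_sub, vadd_eq_add, add_comm, affFam.seg]
    field_simp
    ring
  · rw [mem_Hs]; exact h1.ne'
  · rw [mem_Hs]; exact h2.ne

theorem separates_iff {i : Idx} (σ ρ : Cells) :
    Separates (Hs i) (Wc σ.1) (Wc ρ.1) ↔ (i ∈ σ.1 ↔ i ∉ ρ.1) := by
  obtain ⟨v, hv⟩ := Wc_nonempty σ
  obtain ⟨w, hw⟩ := Wc_nonempty ρ
  constructor
  · intro h
    rcases side_iff (h v hv w hw) with ⟨h1, h2⟩ | ⟨h1, h2⟩
    · constructor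
      · intro _ h3
        have := (hw i).1 h3
        linarith
      · intro _
        by_contra h3
        have := (hv i).2 h3
        linarith
    · constructor
      · intro h3
        have := (hv i).1 h3
        linarith
      · intro h3
        have := (hw i).2 h3
        linarith
  · intro h x hx y hy
    by_cases hi : i ∈ σ.1
    · exact side_of ((hx i).1 hi) ((hy i).2 (h.1 hi))
    · have hi' : i ∈ ρ.1 := by
        by_contra h2
        exact hi (h.2 h2)
      exact (side_of ((hy i).1 hi') ((hx i).2 hi)).symm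

theorem adj_flip {σ ρ : Cells} (h : (chamberGraph Hs).Adj (toCh σ) (toCh ρ)) :
    ∃ i, Flip i σ.1 ρ.1 := by
  obtain ⟨i, h1, h2⟩ := h
  refine ⟨i, fun k hk => ?_, (separates_iff σ ρ).1 h1⟩
  by_contra h3
  have h4 : (k ∈ σ.1 ↔ k ∉ ρ.1) := by tauto
  exact hk (h2 k ((separates_iff σ ρ).2 h4))

/-- the set of chambers -/
def Sch : Set (chambers Hs) := toCh '' {σ : Cells | σ.1 ∈ Sc}

theorem Sch_encard : Sch.encard = 39774 := by
  unfold Sch
  rw [toCh_inj.encard_image]
  have h1 : (Subtype.val '' {σ : Cells | σ.1 ∈ Sc}) = Sc := by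
    ext σ
    constructor
    · rintro ⟨ρ, hρ, rfl⟩; exact hρ
    · intro h; exact ⟨⟨σ, h.1⟩, h, rfl⟩
  rw [← Subtype.val_injective.encard_image, h1]
  have hfin : Sc.Finite := Cells_finite.subset fun σ h => h.1
  rw [← hfin.cast_ncard_eq, Sc_ncard]
  norm_num

theorem univ_encard : 95284 ≤ (Set.univ : Set (chambers Hs)).encard := by
  have h1 : (Set.univ : Set (chambers Hs)) = toCh '' Set.univ := by
    rw [Set.image_univ, toCh_surj.range_eq]
  rw [h1, toCh_inj.encard_image, ← Subtype.val_injective.encard_image, Set.image_univ,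
    Subtype.range_coe, ← Cells_finite.cast_ncard_eq]
  exact_mod_cast total

theorem boundary_encard : (edgeBoundary Hs Sch).encard ≤ 1896 := by
  set B' : Set (Cells × Cells) := {p | (p.1.1, p.2.1) ∈ Bd} with hB'
  have h1 : edgeBoundary Hs Sch ⊆ (fun p : Cells × Cells => s(toCh p.1, toCh p.2)) '' B' := by
    rintro e ⟨he, C, hC, D, hD, rfl⟩
    obtain ⟨σ, hσ, rfl⟩ := hC
    obtain ⟨ρ, rfl⟩ := toCh_surj D
    have hadj : (chamberGraph Hs).Adj (toCh σ) (toCh ρ) := he
    refine ⟨(σ, ρ), ?_, rfl⟩
    refine ⟨hσ, ρ.2, fun h => hD ⟨ρ, h, rfl⟩, adj_flip hadj⟩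
  have h2 : (fun p : Cells × Cells => (p.1.1, p.2.1)) '' B' ⊆ Bd := by
    rintro _ ⟨p, hp, rfl⟩
    exact hp
  have hinj : Function.Injective (fun p : Cells × Cells => (p.1.1, p.2.1)) := by
    rintro ⟨a, b⟩ ⟨c, d⟩ h
    simp only [Prod.mk.injEq] at h
    exact Prod.ext (Subtype.ext h.1) (Subtype.ext h.2)
  have hfin : Bd.Finite := (Finset.finite_toSet _).subset Bd_sub
  calc (edgeBoundary Hs Sch).encard ≤ _ := Set.encard_le_encard h1
    _ ≤ B'.encard := Set.encard_image_le _ _
    _ = ((fun p : Cells × Cells => (p.1.1, p.2.1)) '' B').encard := (hinj.encard_image _).symm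
    _ ≤ Bd.encard := Set.encard_le_encard h2
    _ = (Bd.ncard : ℕ∞) := hfin.cast_ncard_eq.symm
    _ ≤ 1896 := by exact_mod_cast Bd_ncard

/-- **The edge-isoperimetric inequality fails in dimension `3`.** There are a finite family of
planes of `ℝ³` in general position and a set `S` of at most half of its chambers with
`|S| = ∑_{i=0}^{3} C(k,i)`, for an integer `k ≥ 2`, and `|∂S| < ∑_{i=0}^{2} C(k,i)`. -/
theorem result : ¬ EdgeIsoperimetry 3 := by
  intro h
  have h1 := h Idx Hs generalPosition 62 (by norm_num) Sch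
    (by
      unfold AtMostHalf
      rw [Sch_encard]
      refine le_trans ?_ univ_encard
      norm_num)
    (by
      rw [Sch_encard]
      have : binSum 62 (3 + 1) = 39774 := by decide
      rw [this]
      norm_num)
  have h2 := h1.trans boundary_encard
  have h3 : binSum 62 3 = 1954 := by decide
  rw [h3] at h2
  have h4 : (1954 : ℕ) ≤ 1896 := by exact_mod_cast h2
  omega

end Pool.Agent.Results.MP_90133a_co.ChamberIsoperimetryFails
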